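import Pool.Agent.W702.Sponge.One

/-!
Problem MP_ecd4e3_gt (Guth's sponge problem), as posed in the problem file.
-/

namespace Pool.Agent.Results.MP_ecd4e3_gt.LengthIncreasing

open Set Filter Topology MeasureTheory
open scoped ENNReal
open Pool.Agent.W702.Sponge

/-- Euclidean `n`-space. -/
abbrev E (n : ℕ) : Type := EuclideanSpace ℝ (Fin n)

/-- The length of the curve `γ : [a,b] → ℝ^n`: the supremum over all finite increasing sequences in
`[a,b]` of the sums of the distances between consecutive points. The curve is rectifiable when this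
is finite. -/
noncomputable def length {n : ℕ} (γ : ℝ → E n) (a b : ℝ) : ℝ≥0∞ := eVariationOn γ (Icc a b)

/-- `f` restricted to `U` is a length-increasing (in the non-strict sense) topological embedding of
`U` into the closed unit ball. -/
def IsLengthIncreasingEmbedding {n : ℕ} (U : Set (E n)) (f : E n → E n) : Prop :=
  IsEmbedding (fun x : U => f x) ∧ (∀ x ∈ U, ‖f x‖ ≤ 1) ∧
  ∀ (a b : ℝ) (γ : ℝ → E n), a ≤ b → ContinuousOn γ (Icc a b) → MapsTo γ (Icc a b) U →
    length γ a b ≠ ⊤ → length γ a b ≤ length (f ∘ γ) a b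

/-- The wild embedding in dimension at least two. -/
theorem wild (n : ℕ) (hn : 2 ≤ n) :
    ∃ f : E n → E n, IsEmbedding f ∧ (∀ x, ‖f x‖ ≤ 1) ∧
      ∀ (a b : ℝ) (γ : ℝ → E n), ContinuousOn γ (Icc a b) → length γ a b ≠ ⊤ →
        (∃ s ∈ Icc a b, ∃ t ∈ Icc a b, γ s ≠ γ t) → length (f ∘ γ) a b = ⊤ := by
  obtain ⟨m, rfl⟩ : ∃ m, n = m + 2 := ⟨n - 2, by omega⟩
  let N : ℝ := (m + 2 : ℕ)
  have hN : 0 < N := by
    show (0 : ℝ) < ((m + 2 : ℕ) : ℝ)
    positivity
  let c : ℝ := 1 / (8 * N)
  have hc : 0 < c := by positivity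
  let e := EuclideanSpace.equiv (Fin (m + 2)) ℝ
  let f : E (m + 2) → E (m + 2) := fun x => e.symm (Fc c c (e x))
  have hfi : ∀ x i, f x i = Fc c c (e x) i := fun x i => rfl
  refine ⟨f, ?_, ?_, ?_⟩
  · exact e.symm.toHomeomorph.isEmbedding.comp
      ((Fc_emb hc c).comp e.toHomeomorph.isEmbedding)
  · intro x
    have h1 : ‖f x‖ ^ 2 ≤ 1 := by
      rw [EuclideanSpace.real_norm_sq_eq]
      have h2 : ∀ i ∈ Finset.univ, (f x i) ^ 2 ≤ 1 / N := by
        intro i _
        rw [hfi]
        have h3 := Fc_bdd hc hc (e x) i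
        have h4 : c * 2 + c * 4 ≤ 1 / N := by
          show 1 / (8 * N) * 2 + 1 / (8 * N) * 4 ≤ 1 / N
          rw [show 1 / (8 * N) * 2 + 1 / (8 * N) * 4 = (3 / 4) * (1 / N) by field_simp; norm_num]
          have : 0 < 1 / N := by positivity
          linarith
        have h5 : 1 / N ≤ 1 := by
          rw [div_le_one hN]
          show (1 : ℝ) ≤ ((m + 2 : ℕ) : ℝ)
          push_cast
          have : (0 : ℝ) ≤ m := Nat.cast_nonneg _
          linarith
        rw [← sq_abs]
        have h6 : |Fc c c (e x) i| ≤ 1 / N := h3.trans h4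
        have h7 : 0 ≤ |Fc c c (e x) i| := abs_nonneg _
        nlinarith
      calc ∑ i, (f x i) ^ 2 ≤ ∑ _i : Fin (m + 2), 1 / N := Finset.sum_le_sum h2
        _ = 1 := by
          rw [Finset.sum_const, Finset.card_univ, Fintype.card_fin, nsmul_eq_mul]
          show N * (1 / N) = 1
          field_simp
    have h2 := norm_nonneg (f x)
    nlinarith
  · intro a b γ hγ hlen ⟨s, hs, t, ht, hst⟩
    by_contra hfin
    apply hst
    have hcoord : ∀ (η : ℝ → E (m + 2)) (i : Fin (m + 2)), length η a b ≠ ⊤ →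
        eVariationOn (fun t => η t i) (Icc a b) ≠ ⊤ := by
      intro η i hη
      have hL : LipschitzWith 1 (fun x : E (m + 2) => x i) := by
        refine LipschitzWith.of_dist_le_mul (fun x y => ?_)
        rw [NNReal.coe_one, one_mul]
        have := PiLp.norm_apply_le (x - y) i
        rw [dist_eq_norm, dist_eq_norm]
        simpa using this
      have h3 := (hL.lipschitzOnWith (s := univ)).comp_eVariationOn_le (g := η)
        (s := Icc a b) (fun x _ => mem_univ _)
      exact ne_top_of_le_ne_top (ENNReal.mul_ne_top (by simp) hη) h3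
    have hγ' : ContinuousOn (fun t => e (γ t)) (Icc a b) := e.continuous.comp_continuousOn hγ
    have := Fc_wild hc hc hγ' (fun i => hcoord γ i hlen)
      (fun i => by
        have := hcoord (f ∘ γ) i hfin
        exact this) s hs t ht
    exact e.injective this

/-- The one-dimensional case. -/
theorem one (U : Set (E 1)) (hU : IsOpen U) (hvol : volume U ≤ 1) :
    ∃ f : E 1 → E 1, IsLengthIncreasingEmbedding U f := by
  let inc : ℝ → E 1 := fun t => WithLp.toLp 2 (fun _ => t)
  have hinc : Continuous inc := (PiLp.continuous_toLp 2 _).comp (continuous_pi fun _ => continuous_id)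
  have hdist : ∀ x y : E 1, dist x y = |x 0 - y 0| := by
    intro x y
    rw [EuclideanSpace.dist_eq]
    simp [Real.dist_eq, Real.sqrt_sq_eq_abs]
  have hinc0 : ∀ t, inc t 0 = t := fun t => rfl
  have hincx : ∀ x : E 1, inc (x 0) = x := by
    intro x
    refine dist_le_zero.mp ?_
    rw [hdist, hinc0]
    simp
  let V : Set ℝ := inc ⁻¹' U
  have hVo : IsOpen V := hU.preimage hinc
  have hmp : MeasurePreserving inc volume volume := by
    have h1 := (volume_preserving_piUnique (fun _ : Fin 1 => ℝ)).symm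
    have h2 := PiLp.volume_preserving_toLp (Fin 1)
    have h3 := h2.comp h1
    have h4 : (WithLp.toLp 2 : (Fin 1 → ℝ) → E 1) ∘
        ((MeasurableEquiv.piUnique (fun _ : Fin 1 => ℝ)).symm : ℝ → (Fin 1 → ℝ)) = inc := by
      funext t
      refine dist_le_zero.mp ?_
      rw [hdist, hinc0]
      have : ((MeasurableEquiv.piUnique (fun _ : Fin 1 => ℝ)).symm t) 0 = t := by
        have := (MeasurableEquiv.piUnique (fun _ : Fin 1 => ℝ)).apply_symm_apply t
        exact this
      show |((MeasurableEquiv.piUnique (fun _ : Fin 1 => ℝ)).symm t) 0 - t| ≤ 0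
      rw [this]
      simp
    rw [h4] at h3
    exact h3
  have hV : volume V ≤ 1 := by
    rw [hmp.measure_preimage hU.measurableSet.nullMeasurableSet]
    exact hvol
  have hUV : ∀ x ∈ U, x 0 ∈ V := by
    intro x hx
    show inc (x 0) ∈ U
    rw [hincx]
    exact hx
  let f : E 1 → E 1 := fun x => inc (Mf V (x 0))
  have hfd : ∀ x y, dist (f x) (f y) = |Mf V (x 0) - Mf V (y 0)| := by
    intro x y
    rw [hdist]
  have hcoord : Continuous (fun x : E 1 => x 0) := by fun_prop
  have hfc : Continuous f := hinc.comp ((Mf_cont hVo hV).comp hcoord)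
  have hcontrol : ∀ x : U, ∀ ε > 0, ∃ δ > 0, ∀ y : U,
      dist (f y) (f x) < δ → dist y x < ε := by
    intro x ε hε
    obtain ⟨δ, hδ, h⟩ := Mf_inv hVo hV (hUV x.1 x.2) hε
    refine ⟨δ, hδ, fun y hy => ?_⟩
    rw [hfd] at hy
    have := h _ hy
    rw [Subtype.dist_eq, hdist]
    exact this
  refine ⟨f, ⟨?_, ?_⟩, ?_, ?_⟩
  · rw [isInducing_iff_nhds]
    intro x
    refine le_antisymm ?_ ?_
    · rw [← map_le_iff_le_comap]
      exact (hfc.comp continuous_subtype_val).continuousAt
    · rw [(Metric.nhds_basis_ball.comap (fun x : U => f x)).le_basis_iff Metric.nhds_basis_ball]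
      intro ε hε
      obtain ⟨δ, hδ, h⟩ := hcontrol x ε hε
      exact ⟨δ, hδ, fun y hy => h y hy⟩
  · intro x y hxy
    by_contra hne
    have hd : 0 < dist y x := dist_pos.mpr (Ne.symm hne)
    obtain ⟨δ, hδ, h⟩ := hcontrol x _ hd
    have hxy' : f x = f y := hxy
    have := h y (by rw [← hxy', dist_self]; exact hδ)
    exact lt_irrefl _ this
  · intro x _
    have h1 : ‖f x‖ = |Mf V (x 0)| := by
      have := hdist (f x) 0
      rw [dist_zero_right] at this
      rw [this]
      show |Mf V (x 0) - 0| = _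
      rw [sub_zero]
    rw [h1, abs_of_nonneg (Mf_nonneg _ _)]
    exact Mf_le_one hV _
  · intro a b γ hab hγ hmaps _
    have hX : ContinuousOn (fun t => γ t 0) (Icc a b) := hcoord.comp_continuousOn hγ
    have hcur := Mf_curve hVo hV hX (fun t ht => hUV _ (hmaps ht))
    refine iSup_le (fun p => ?_)
    obtain ⟨k, u, hu, hus⟩ := p
    refine le_trans (Finset.sum_le_sum (fun i _ => ?_)) (eVariationOn.sum_le hu hus)
    rw [edist_dist, edist_dist]
    refine ENNReal.ofReal_le_ofReal ?_
    show dist (γ (u (i + 1))) (γ (u i)) ≤ dist (f (γ (u (i + 1)))) (f (γ (u i)))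
    rw [hfd, hdist, hcur (u i) (hus i) (u (i + 1)) (hus (i + 1))]

/-- **Main result.** (i) For every `n ≥ 1` there is `ε > 0` such that every open subset of `ℝ^n` of
volume at most `ε` admits a length-increasing topological embedding into the closed unit ball.
(ii) For `n ≥ 2` there is one topological embedding of all of `ℝ^n` into the closed unit ball which
sends every nonconstant rectifiable curve to a curve of infinite length; in particular every open
subset of `ℝ^n`, of any volume, admits a length-increasing topological embedding into the ball. -/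
theorem result :
    (∀ n : ℕ, 1 ≤ n → ∃ ε : ℝ, 0 < ε ∧ ∀ U : Set (E n), IsOpen U →
      volume U ≤ ENNReal.ofReal ε → ∃ f : E n → E n, IsLengthIncreasingEmbedding U f) ∧
    (∀ n : ℕ, 2 ≤ n → ∃ f : E n → E n, IsEmbedding f ∧ (∀ x, ‖f x‖ ≤ 1) ∧
      (∀ (a b : ℝ) (γ : ℝ → E n), ContinuousOn γ (Icc a b) → length γ a b ≠ ⊤ →
        (∃ s ∈ Icc a b, ∃ t ∈ Icc a b, γ s ≠ γ t) → length (f ∘ γ) a b = ⊤) ∧
      ∀ U : Set (E n), IsLengthIncreasingEmbedding U f) := by
  have h2 : ∀ n : ℕ, 2 ≤ n → ∃ f : E n → E n, IsEmbedding f ∧ (∀ x, ‖f x‖ ≤ 1) ∧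
      (∀ (a b : ℝ) (γ : ℝ → E n), ContinuousOn γ (Icc a b) → length γ a b ≠ ⊤ →
        (∃ s ∈ Icc a b, ∃ t ∈ Icc a b, γ s ≠ γ t) → length (f ∘ γ) a b = ⊤) ∧
      ∀ U : Set (E n), IsLengthIncreasingEmbedding U f := by
    intro n hn
    obtain ⟨f, hf1, hf2, hf3⟩ := wild n hn
    refine ⟨f, hf1, hf2, hf3, fun U => ⟨?_, fun x _ => hf2 x, ?_⟩⟩
    · exact hf1.comp IsEmbedding.subtypeVal
    · intro a b γ _ hγ _ hlen
      by_cases hne : ∃ s ∈ Icc a b, ∃ t ∈ Icc a b, γ s ≠ γ t
      · rw [hf3 a b γ hγ hlen hne]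
        exact le_top
      · push Not at hne
        have : length γ a b = 0 := by
          refine eVariationOn.constant_on ?_
          rintro _ ⟨s, hs, rfl⟩ _ ⟨t, ht, rfl⟩
          exact hne s hs t ht
        rw [this]
        exact bot_le
  refine ⟨fun n hn => ?_, h2⟩
  rcases Nat.lt_or_ge n 2 with h | h
  · obtain rfl : n = 1 := by omega
    refine ⟨1, one_pos, fun U hU hvol => one U hU ?_⟩
    rwa [ENNReal.ofReal_one] at hvol
  · obtain ⟨f, _, _, _, hf⟩ := h2 n h
    exact ⟨1, one_pos, fun U _ _ => ⟨f, hf U⟩⟩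

end Pool.Agent.Results.MP_ecd4e3_gt.LengthIncreasing
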